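import Pool.Agent.U757.TQ.Stm

/-!
# Project TQ, package BIN (helper467): binary forms whose discriminant is a power of `2`

`t_BIN : S_MIN → S_L1 → S_BIN` and `t_BIP : S_BB → S_BIP`, by induction on the power of `2`.
-/

set_option autoImplicit false

namespace Pool.U757.TQ.BIN

open O4

/-! ### Divisibility by `2` and `s` in coordinates -/

lemma two_dvd_iff (x : O4) : (2 : O4) ∣ x ↔ 2 ∣ x.a ∧ 2 ∣ x.b ∧ 2 ∣ x.c ∧ 2 ∣ x.d := by
  constructor
  · rintro ⟨y, rfl⟩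
    refine ⟨⟨y.a, by simp⟩, ⟨y.b, by simp⟩, ⟨y.c, by simp⟩, ⟨y.d, by simp⟩⟩
  · rintro ⟨⟨a, ha⟩, ⟨b, hb⟩, ⟨c, hc⟩, ⟨d, hd⟩⟩
    exact ⟨⟨a, b, c, d⟩, by ext <;> simp [ha, hb, hc, hd]⟩

lemma s_dvd_iff (x : O4) : s ∣ x ↔ 2 ∣ x.a ∧ 2 ∣ x.c := by
  constructor
  · rintro ⟨y, rfl⟩
    exact ⟨⟨y.b, by simp⟩, ⟨y.d, by simp⟩⟩
  · rintro ⟨⟨a, ha⟩, ⟨c, hc⟩⟩
    exact ⟨⟨x.b, a, x.d, c⟩, by ext <;> simp [ha, hc]⟩

lemma four_cancel {x y : O4} (h : 4 * x = 4 * y) : x = y := by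
  have ha := congrArg O4.a h
  have hb := congrArg O4.b h
  have hc := congrArg O4.c h
  have hd := congrArg O4.d h
  simp only [mul_a, mul_b, mul_c, mul_d, ofNat_a, ofNat_b, ofNat_c, ofNat_d] at ha hb hc hd
  ext <;> omega

/-- `4 ∣ b²` implies `2 ∣ b` -/
lemma two_dvd_of_sq {b y : O4} (h : b ^ 2 = 4 * y) : (2 : O4) ∣ b := by
  rw [pow_two] at h
  have ha := congrArg O4.a h
  have hb := congrArg O4.b h
  have hc := congrArg O4.c h
  have hd := congrArg O4.d h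
  simp only [mul_a, mul_b, mul_c, mul_d, ofNat_a, ofNat_b, ofNat_c, ofNat_d, zero_mul, mul_zero,
    add_zero] at ha hb hc hd
  have ev : ∀ z : ℤ, Even (z * z) → Even z := fun z hz => by
    rcases Int.even_mul.1 hz with h | h <;> exact h
  have e1 : Even b.c := by
    apply ev
    rw [Int.even_iff]
    have : b.c * b.c = 2 * (2 * y.c - b.a * b.c - 2 * (b.b * b.d) - b.d * b.d) := by linarith
    rw [this]
    omega
  obtain ⟨c', hc'⟩ := e1
  have e2 : Even b.d := by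
    apply ev
    rw [Int.even_iff]
    rw [hc'] at hc
    have : b.d * b.d = 2 * (y.c - b.a * c' - b.b * b.d - c' * c') := by nlinarith
    rw [this]
    omega
  obtain ⟨d', hd'⟩ := e2
  have e3 : Even b.a := by
    apply ev
    rw [Int.even_iff]
    rw [hc', hd'] at ha
    have : b.a * b.a = 2 * (2 * y.a - b.b * b.b - 2 * (c' * c') - 4 * (d' * d')) := by nlinarith
    rw [this]
    omega
  obtain ⟨a', ha'⟩ := e3
  have e4 : Even b.b := by
    apply ev
    rw [Int.even_iff]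
    rw [hc', hd', ha'] at ha
    have : b.b * b.b = 2 * (y.a - a' * a' - c' * c' - 2 * (d' * d')) := by nlinarith
    rw [this]
    omega
  rw [two_dvd_iff]
  obtain ⟨b', hb'⟩ := e4
  exact ⟨⟨a', by omega⟩, ⟨b', by omega⟩, ⟨c', by omega⟩, ⟨d', by omega⟩⟩

/-- an element prime to `s` is invertible modulo `2` -/
lemma inv_two {x : O4} (h : ¬ s ∣ x) : ∃ e t : O4, x * e = 1 + 2 * t := by
  rw [s_dvd_iff] at h
  have hodd : Odd (nA x) := by
    unfold nA
    rw [Int.odd_iff]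
    rcases Int.even_or_odd' x.a with ⟨a, ha | ha⟩ <;> rcases Int.even_or_odd' x.c with ⟨c, hc | hc⟩
    · exact absurd ⟨⟨a, ha⟩, ⟨c, hc⟩⟩ h
    · have : x.a ^ 2 + 2 * x.b ^ 2 + x.a * x.c + 2 * x.b * x.d - x.c ^ 2 - 2 * x.d ^ 2 =
          2 * (2 * a ^ 2 + x.b ^ 2 + a * (2 * c + 1) + x.b * x.d - 2 * c ^ 2 - 2 * c - 1 - x.d ^ 2) + 1 := by
        rw [ha, hc]; ring
      rw [this]; omega
    · have : x.a ^ 2 + 2 * x.b ^ 2 + x.a * x.c + 2 * x.b * x.d - x.c ^ 2 - 2 * x.d ^ 2 =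
          2 * (2 * a ^ 2 + 2 * a + x.b ^ 2 + c * (2 * a + 1) + x.b * x.d - 2 * c ^ 2 - x.d ^ 2) + 1 := by
        rw [ha, hc]; ring
      rw [this]; omega
    · have : x.a ^ 2 + 2 * x.b ^ 2 + x.a * x.c + 2 * x.b * x.d - x.c ^ 2 - 2 * x.d ^ 2 =
          2 * (2 * a ^ 2 + 2 * a + x.b ^ 2 + 2 * a * c + a + c + x.b * x.d - 2 * c ^ 2 - 2 * c - x.d ^ 2) + 1 := by
        rw [ha, hc]; ring
      rw [this]; omega
  obtain ⟨m, hm⟩ := hodd
  refine ⟨⟨x.a + x.c, x.b + x.d, -x.c, -x.d⟩ * ⟨nA x, nB x, 0, 0⟩,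
    ⟨2 * m ^ 2 + 2 * m + nB x ^ 2, nA x * nB x, 0, 0⟩, ?_⟩
  have h1 : x * (⟨x.a + x.c, x.b + x.d, -x.c, -x.d⟩ : O4) = ⟨nA x, nB x, 0, 0⟩ := by
    ext <;> simp [nA, nB] <;> ring
  rw [← mul_assoc, h1]
  ext
  · simp only [mul_a, add_a, one_a, ofNat_a, ofNat_b, ofNat_c, ofNat_d]
    rw [show nA x * nA x = (2 * m + 1) * (2 * m + 1) by rw [← hm]]
    ring
  · simp only [mul_b, add_b, one_b, ofNat_a, ofNat_b, ofNat_c, ofNat_d]
    ring
  · simp
  · simp

/-! ### The induction -/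

/-- the values of the form are, up to powers of `2`, values of `Y² + D Z²` -/
def Rep (D a b c : O4) : Prop := ∀ x y : O4, ∃ (k : ℕ) (Y Z : O4),
  2 ^ k * (a * x ^ 2 + b * (x * y) + c * y ^ 2) = Y ^ 2 + D * Z ^ 2

lemma Rep.swap {D a b c : O4} (h : Rep D c b a) : Rep D a b c := by
  intro x y
  obtain ⟨k, Y, Z, h1⟩ := h y x
  exact ⟨k, Y, Z, by rw [← h1]; ring⟩

lemma s_pow_two : s ^ 2 = 2 := by rw [pow_two, s_sq]

/-- the step at a coefficient prime to `s` -/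
lemma step_unit {D a b1 c r w : O4} (hsa : ¬ s ∣ a) (hr : a * c = r ^ 2 + 2 * w)
    (hrec : ∀ b' c' : O4, 4 * a * c' - b' ^ 2 = 2 * (a * c - b1 ^ 2) → Rep D a b' c') :
    Rep D a (2 * b1) c := by
  obtain ⟨e, t, h1⟩ := inv_two hsa
  have hs := s_pow_two
  obtain ⟨G, hG⟩ : ∃ G, a * (r * e) ^ 2 + 2 * b1 * (r * e) + c = 2 * G := by
    refine ⟨e * (r ^ 2 + 2 * r ^ 2 * t + 2 * r ^ 2 * t ^ 2 + b1 * r * (1 + 2 * t) + w) -
      t * (a * (r * e) ^ 2 + 2 * b1 * (r * e) + c), ?_⟩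
    linear_combination (-(a * (r * e) ^ 2 + 2 * b1 * (r * e) + c) +
      e * (r ^ 2 * (a * e + 1 + 2 * t) + 2 * b1 * r)) * h1 + e * hr
  have h2 := hrec (s * (a * (r * e) + b1)) G (by
    linear_combination (-2 * a) * hG - (a * (r * e) + b1) ^ 2 * hs)
  intro x y
  obtain ⟨k, Y, Z, h3⟩ := h2 (x - r * e * y) (s * y)
  refine ⟨k, Y, Z, ?_⟩
  rw [← h3]
  linear_combination 2 ^ k * (y ^ 2 * hG - (a * (r * e) + b1) * (x - r * e * y) * y * hs -
    G * y ^ 2 * hs)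

/-- `p2` is totally positive -/
lemma sv_bounds (i : Fin 4) : sv i < 2 := by
  have h2 : √(2 : ℝ) < 2 := by
    rw [Real.sqrt_lt' (by norm_num)]
    norm_num
  have h0 : 0 ≤ √(2 : ℝ) := Real.sqrt_nonneg _
  fin_cases i <;> simp [sv] <;> linarith

lemma p2_pos : TPos p2 := by
  intro i
  rw [σ_apply]
  simp only [p2_a, p2_b, p2_c, p2_d]
  have := sv_bounds i
  push_cast
  linarith

/-- **the induction** -/
theorem ind (D : O4) (j₀ : ℕ) (hj₀ : 1 ≤ j₀) (hD : TPos D)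
    (hp : ∀ Y Z : O4, ∃ Y' Z' : O4, 2 * p2 * (Y ^ 2 + D * Z ^ 2) = Y' ^ 2 + D * Z' ^ 2)
    (h0 : ∀ i, j₀ ≤ i + 1 → ∀ b1 : O4, ∃ r w : O4, b1 ^ 2 + 2 ^ i * D = r ^ 2 + 2 * w)
    (base : ∀ a b c : O4, TPos a → 4 * a * c - b ^ 2 = 2 ^ j₀ * D → Rep D a b c) :
    ∀ j, j₀ ≤ j → ∀ a b c : O4, TPos a → 4 * a * c - b ^ 2 = 2 ^ j * D → Rep D a b c := by
  intro j hj
  induction j, hj using Nat.le_induction with
  | base => exact base
  | succ j hj ih =>
    intro a b c ha h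
    obtain ⟨i, rfl⟩ : ∃ i, j = i + 1 := ⟨j - 1, by omega⟩
    obtain ⟨b1, rfl⟩ : (2 : O4) ∣ b := two_dvd_of_sq (y := a * c - 2 ^ i * D) (by
      linear_combination -h)
    have hac : a * c - b1 ^ 2 = 2 ^ i * D := by
      apply four_cancel
      linear_combination h
    have hc : TPos c := by
      intro k
      have e1 := congrArg (σ k) hac
      rw [map_sub, map_mul, map_pow, map_mul, map_pow, map_ofNat] at e1
      have e2 : 0 < (2 : ℝ) ^ i * σ k D := mul_pos (by positivity) (hD k)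
      have e3 : 0 < σ k a * σ k c := by nlinarith [sq_nonneg (σ k b1)]
      exact (mul_pos_iff_of_pos_left (ha k)).1 e3
    obtain ⟨r, w, hr⟩ := h0 i hj b1
    have hr' : a * c = r ^ 2 + 2 * w := by linear_combination hac + hr
    by_cases hsa : s ∣ a
    · by_cases hsc : s ∣ c
      · obtain ⟨a', rfl⟩ := hsa
        obtain ⟨c', rfl⟩ := hsc
        have hs := s_pow_two
        have hp2 := p2_eq
        -- `s = p2 (s + 1)`
        have e1 : s = p2 * (s + 1) := by rw [hp2]; linear_combination hs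
        have hpos : TPos ((s + 1) * a') := by
          intro k
          have e2 : σ k (s * a') = σ k p2 * σ k ((s + 1) * a') := by
            rw [← map_mul]
            congr 1
            nth_rewrite 1 [e1]
            ring
          have e3 := ha k
          rw [e2] at e3
          exact (mul_pos_iff_of_pos_left (p2_pos k)).1 e3
        -- `2 b1 = s² b1`
        have hI := ih ((s + 1) * a') (s * (s + 1) * (s - 1) * b1) ((s + 1) * (s - 1) ^ 2 * c') hpos (by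
          have e5 : s * a' * (s * c') - b1 ^ 2 = 2 ^ i * D := hac
          have e6 : (s - 1) * (s + 1) = 1 := by linear_combination hs
          have e7 : 4 * ((s + 1) * a') * ((s + 1) * (s - 1) ^ 2 * c') -
              (s * (s + 1) * (s - 1) * b1) ^ 2 =
              ((s - 1) * (s + 1)) ^ 2 * (4 * a' * c' - s ^ 2 * b1 ^ 2) := by ring
          rw [e7, e6]
          linear_combination 2 * e5 - (b1 ^ 2 + 2 * a' * c') * hs)
        intro x y
        obtain ⟨k, Y, Z, h3⟩ := hI x ((s + 1) * y)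
        obtain ⟨Y', Z', h4⟩ := hp Y Z
        refine ⟨k + 1, Y', Z', ?_⟩
        rw [← h4, ← h3, hp2, pow_succ (2 : O4) k]
        have e6 : (s - 1) * (s + 1) = 1 := by linear_combination hs
        have e8 : (2 - s) * (s + 1) = s := by linear_combination -hs
        have e9 : (s + 1) * a' * x ^ 2 + s * (s + 1) * (s - 1) * b1 * (x * ((s + 1) * y)) +
            (s + 1) * (s - 1) ^ 2 * c' * ((s + 1) * y) ^ 2 =
            (s + 1) * (a' * x ^ 2 + s * b1 * (x * y) * ((s - 1) * (s + 1)) +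
              ((s - 1) * (s + 1)) ^ 2 * c' * y ^ 2) := by ring
        rw [e9, e6]
        have e10 : 2 * (2 - s) * (2 ^ k * ((s + 1) * (a' * x ^ 2 + s * b1 * (x * y) * 1 +
            1 ^ 2 * c' * y ^ 2))) = 2 ^ k * 2 * (((2 - s) * (s + 1)) *
              (a' * x ^ 2 + s * b1 * (x * y) + c' * y ^ 2)) := by ring
        rw [e10, e8]
        linear_combination (-(2 ^ k * 2 * b1 * (x * y))) * hs
      · refine Rep.swap (step_unit (r := r) (w := w) hsc (by rw [mul_comm c a]; exact hr') ?_)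
        intro b' c' h'
        exact ih c b' c' hc (by rw [h']; linear_combination 2 * hac)
    · refine step_unit hsa hr' ?_
      intro b' c' h'
      exact ih a b' c' ha (by rw [h']; linear_combination 2 * hac)

/-! ### The embeddings are injective, `T` is positive -/

lemma irr_sv (i : Fin 4) : Irrational (sv i) := by
  have h := irrational_sqrt_two
  have h' := irrational_sqrt_two.neg
  fin_cases i
  · simpa [sv] using h
  · simpa [sv] using h
  · simpa [sv] using h'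
  · simpa [sv] using h'

lemma indep_sv (i : Fin 4) {P Q : ℤ} (h : (P : ℝ) + Q * sv i = 0) : P = 0 ∧ Q = 0 := by
  have hQ : Q = 0 := by
    by_contra hQ
    have hQ' : (Q : ℝ) ≠ 0 := by exact_mod_cast hQ
    apply irr_sv i
    refine ⟨(-P / Q : ℚ), ?_⟩
    push_cast
    field_simp
    linarith
  subst hQ
  refine ⟨?_, rfl⟩
  have : (P : ℝ) = 0 := by simpa using h
  exact_mod_cast this

lemma mod_five {g h : ℤ} (H : (5 : ℤ) ∣ g ^ 2 + 2 * h ^ 2) : (5 : ℤ) ∣ g ∧ (5 : ℤ) ∣ h := by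
  have key : ∀ x y : ZMod 5, x ^ 2 + 2 * y ^ 2 = 0 → x = 0 ∧ y = 0 := by decide
  have h1 : ((g ^ 2 + 2 * h ^ 2 : ℤ) : ZMod 5) = 0 := (ZMod.intCast_zmod_eq_zero_iff_dvd _ 5).2 (by exact_mod_cast H)
  push_cast at h1
  obtain ⟨a, b⟩ := key _ _ h1
  exact ⟨by exact_mod_cast (ZMod.intCast_zmod_eq_zero_iff_dvd _ 5).1 a,
    by exact_mod_cast (ZMod.intCast_zmod_eq_zero_iff_dvd _ 5).1 b⟩

lemma descent : ∀ (n : ℕ) (g h c d : ℤ), g ^ 2 + 2 * h ^ 2 = 5 * (c ^ 2 + 2 * d ^ 2) →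
    c ^ 2 + 2 * d ^ 2 ≤ n → g = 0 ∧ h = 0 ∧ c = 0 ∧ d = 0 := by
  intro n
  induction n with
  | zero =>
    intro g h c d h1 h2
    have hc : c = 0 := by
      have : c ^ 2 ≤ 0 := by push_cast at h2; nlinarith [sq_nonneg d]
      exact pow_eq_zero_iff (n := 2) (by norm_num) |>.1 (le_antisymm this (sq_nonneg c))
    have hd : d = 0 := by
      have : d ^ 2 ≤ 0 := by push_cast at h2; nlinarith [sq_nonneg c]
      exact pow_eq_zero_iff (n := 2) (by norm_num) |>.1 (le_antisymm this (sq_nonneg d))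
    subst hc hd
    have hg : g = 0 := by
      have : g ^ 2 ≤ 0 := by nlinarith [sq_nonneg h]
      exact pow_eq_zero_iff (n := 2) (by norm_num) |>.1 (le_antisymm this (sq_nonneg g))
    have hh : h = 0 := by
      have : h ^ 2 ≤ 0 := by nlinarith [sq_nonneg g]
      exact pow_eq_zero_iff (n := 2) (by norm_num) |>.1 (le_antisymm this (sq_nonneg h))
    exact ⟨hg, hh, rfl, rfl⟩
  | succ n ih =>
    intro g h c d h1 h2
    obtain ⟨⟨g', rfl⟩, ⟨h', rfl⟩⟩ := mod_five (g := g) (h := h) ⟨_, h1⟩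
    obtain ⟨⟨c', rfl⟩, ⟨d', rfl⟩⟩ := mod_five (g := c) (h := d) ⟨g' ^ 2 + 2 * h' ^ 2, by nlinarith⟩
    obtain ⟨X, hX⟩ : ∃ X, X = c' ^ 2 + 2 * d' ^ 2 := ⟨_, rfl⟩
    have hX0 : 0 ≤ X := by rw [hX]; positivity
    have h3 : 25 * X ≤ n + 1 := by
      rw [hX]
      push_cast at h2
      nlinarith
    obtain ⟨a1, a2, a3, a4⟩ := ih g' h' c' d' (by nlinarith) (by rw [← hX]; omega)
    subst a1 a2 a3 a4
    exact ⟨rfl, rfl, rfl, rfl⟩

lemma σ_ne (i : Fin 4) {x : O4} (hx : x ≠ 0) : σ i x ≠ 0 := by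
  intro h
  apply hx
  rw [σ_apply] at h
  have hs := sv_sq i
  have hf := fv_sq i
  -- `x = A + B φ`
  have h1 : ((x.a : ℝ) + x.b * sv i) ^ 2 + (x.a + x.b * sv i) * (x.c + x.d * sv i) -
      (x.c + x.d * sv i) ^ 2 = 0 := by
    have hA : (x.a : ℝ) + x.b * sv i = -((x.c + x.d * sv i) * fv i) := by linarith
    rw [hA]
    linear_combination (x.c + x.d * sv i) ^ 2 * hf
  have h2 : (((2 * x.a + x.c) ^ 2 + 2 * (2 * x.b + x.d) ^ 2 - 5 * (x.c ^ 2 + 2 * x.d ^ 2) : ℤ) : ℝ) +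
      ((2 * ((2 * x.a + x.c) * (2 * x.b + x.d) - 5 * (x.c * x.d)) : ℤ) : ℝ) * sv i = 0 := by
    push_cast
    linear_combination 4 * h1 - ((2 * x.b + x.d) ^ 2 - 5 * x.d ^ 2) * hs
  obtain ⟨h3, -⟩ := indep_sv i h2
  obtain ⟨a1, a2, a3, a4⟩ := descent (x.c ^ 2 + 2 * x.d ^ 2).toNat (2 * x.a + x.c) (2 * x.b + x.d)
    x.c x.d (by linarith) (by
      rw [Int.toNat_of_nonneg (by positivity)])
  ext
  · simp only [zero_a]; omega
  · simp only [zero_b]; omega
  · exact a3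
  · exact a4

/-- `T` is a sum of the embeddings with positive weights -/
lemma T_eq (x : O4) : ((T x : ℤ) : ℝ) =
    (2 + √2) / 4 * ((5 + √5) / 10) * σ 0 x + (2 + √2) / 4 * ((5 - √5) / 10) * σ 1 x +
    (2 - √2) / 4 * ((5 + √5) / 10) * σ 2 x + (2 - √2) / 4 * ((5 - √5) / 10) * σ 3 x := by
  have hp : √(2 : ℝ) * √2 = 2 := Real.mul_self_sqrt (by norm_num)
  have hq : √(5 : ℝ) * √5 = 5 := Real.mul_self_sqrt (by norm_num)
  simp only [σ_apply, T, sv, fv]
  simp only [Fin.isValue, Matrix.cons_val]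
  push_cast
  linear_combination (-(x.b : ℝ) / 2 - x.d * (5 + √5 * √5) / 20) * hp + (-(x.c : ℝ) / 10 - x.d / 10) * hq

lemma T_pos {x : O4} (hx : TPos x) : 1 ≤ T x := by
  have hp : √(2 : ℝ) < 2 := by
    rw [Real.sqrt_lt' (by norm_num)]
    norm_num
  have hq : √(5 : ℝ) < 5 := by
    rw [Real.sqrt_lt' (by norm_num)]
    norm_num
  have hp0 : 0 ≤ √(2 : ℝ) := Real.sqrt_nonneg _
  have hq0 : 0 ≤ √(5 : ℝ) := Real.sqrt_nonneg _
  have e1 : 0 < (2 + √2) / 4 * ((5 + √5) / 10) := by positivity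
  have e2 : 0 < (2 + √2) / 4 * ((5 - √5) / 10) :=
    mul_pos (by positivity) (by linarith)
  have e3 : 0 < (2 - √2) / 4 * ((5 + √5) / 10) :=
    mul_pos (by linarith) (by positivity)
  have e4 : 0 < (2 - √2) / 4 * ((5 - √5) / 10) :=
    mul_pos (by linarith) (by linarith)
  have h : (0 : ℝ) < ((T x : ℤ) : ℝ) := by
    rw [T_eq]
    have := mul_pos e1 (hx 0)
    have := mul_pos e2 (hx 1)
    have := mul_pos e3 (hx 2)
    have := mul_pos e4 (hx 3)
    linarith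
  have h' : 0 < T x := by exact_mod_cast h
  omega

/-! ### A short vector -/

/-- the values of a positive form are totally positive -/
lemma tpos_value {a b c E : O4} (ha : TPos a) (hE : TPos E) (h : 4 * a * c - b ^ 2 = E) {x y : O4}
    (hxy : x ≠ 0 ∨ y ≠ 0) : TPos (a * x ^ 2 + b * (x * y) + c * y ^ 2) := by
  intro i
  have e1 := congrArg (σ i) h
  simp only [map_sub, map_mul, map_pow, map_ofNat] at e1
  simp only [map_add, map_mul, map_pow]
  have ha' := ha i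
  have hE' := hE i
  have key : 4 * σ i a * (σ i a * σ i x ^ 2 + σ i b * (σ i x * σ i y) + σ i c * σ i y ^ 2) =
      (2 * σ i a * σ i x + σ i b * σ i y) ^ 2 + σ i E * σ i y ^ 2 := by
    rw [← e1]; ring
  have hpos : 0 < (2 * σ i a * σ i x + σ i b * σ i y) ^ 2 + σ i E * σ i y ^ 2 := by
    by_cases hy : y = 0
    · subst hy
      have hx : x ≠ 0 := by tauto
      have := σ_ne i hx
      rw [map_zero]
      have : 0 < (σ i x) ^ 2 := by positivity
      nlinarith [mul_pos ha' ha']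
    · have := σ_ne i hy
      have : 0 < σ i y ^ 2 := by positivity
      nlinarith [mul_pos hE' this, sq_nonneg (2 * σ i a * σ i x + σ i b * σ i y)]
  rw [← key] at hpos
  exact (mul_pos_iff_of_pos_left (by positivity)).1 hpos

lemma two_pos : TPos 2 := by
  intro i
  rw [map_ofNat]
  norm_num

lemma one_pos' : TPos 1 := by
  intro i
  rw [map_one]
  exact one_pos

/-- a vector with `T = 1` -/
lemma short (hM : S_MIN) {a b c : O4} (ha : TPos a) (h : 4 * a * c - b ^ 2 = 2) :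
    ∃ x y : O4, (x ≠ 0 ∨ y ≠ 0) ∧ T (a * x ^ 2 + b * (x * y) + c * y ^ 2) = 1 := by
  by_contra hcon
  push Not at hcon
  have hT : ∀ x y : O4, (x ≠ 0 ∨ y ≠ 0) → 2 ≤ T (a * x ^ 2 + b * (x * y) + c * y ^ 2) := by
    intro x y hxy
    have h1 := T_pos (tpos_value ha two_pos h hxy)
    have h2 := hcon x y hxy
    omega
  have h3 := hM 2 !![2 * a, b; b, 2 * c] (by norm_num) (by
    intro i
    have e1 := congrArg (σ i) h
    simp only [map_sub, map_mul, map_pow, map_ofNat] at e1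
    have ha' := ha i
    refine Matrix.PosDef.of_dotProduct_mulVec_pos ?_ ?_
    · ext p q
      fin_cases p <;> fin_cases q <;> simp
    · intro v hv
      have h4 : star v ⬝ᵥ ((!![2 * a, b; b, 2 * c] : Matrix (Fin 2) (Fin 2) O4).map (σ i)).mulVec v =
          2 * (σ i a * v 0 ^ 2 + σ i b * (v 0 * v 1) + σ i c * v 1 ^ 2) := by
        have h2' : σ i 2 = 2 := map_ofNat _ 2
        simp [Matrix.mulVec, dotProduct, Fin.sum_univ_two, h2']
        ring
      rw [h4]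
      have key : 4 * σ i a * (σ i a * v 0 ^ 2 + σ i b * (v 0 * v 1) + σ i c * v 1 ^ 2) =
          (2 * σ i a * v 0 + σ i b * v 1) ^ 2 + 2 * v 1 ^ 2 := by
        linear_combination (v 1) ^ 2 * e1
      have hpos : 0 < (2 * σ i a * v 0 + σ i b * v 1) ^ 2 + 2 * v 1 ^ 2 := by
        by_cases hy : v 1 = 0
        · have hx : v 0 ≠ 0 := by
            intro hx
            apply hv
            ext j
            fin_cases j
            · exact hx
            · exact hy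
          rw [hy]
          have : 0 < (v 0) ^ 2 := by positivity
          nlinarith [mul_pos ha' ha']
        · have : 0 < v 1 ^ 2 := by positivity
          nlinarith [sq_nonneg (2 * σ i a * v 0 + σ i b * v 1)]
      rw [← key] at hpos
      have := (mul_pos_iff_of_pos_left (by positivity)).1 hpos
      linarith) 4 (by norm_num) (by
    intro v hv
    have h4 : ∑ p, ∑ q, (!![2 * a, b; b, 2 * c] : Matrix (Fin 2) (Fin 2) O4) p q * (v p * v q) =
        (a * v 0 ^ 2 + b * (v 0 * v 1) + c * v 1 ^ 2) + (a * v 0 ^ 2 + b * (v 0 * v 1) + c * v 1 ^ 2) := by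
      simp [Fin.sum_univ_two]
      ring
    rw [h4]
    have h5 : v 0 ≠ 0 ∨ v 1 ≠ 0 := by
      by_contra hc
      push Not at hc
      apply hv
      ext j : 1
      fin_cases j
      · exact hc.1
      · exact hc.2
    have h6 := hT _ _ h5
    have h7 : ∀ z : O4, T (z + z) = 2 * T z := by
      intro z
      simp only [T, add_a, add_b, add_c, add_d]
      ring
    rw [h7]
    have h8 : (4 : ℤ) ≤ 2 * T (a * v 0 ^ 2 + b * (v 0 * v 1) + c * v 1 ^ 2) := by omega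
    exact_mod_cast h8)
  have hdet : (!![2 * a, b; b, 2 * c] : Matrix (Fin 2) (Fin 2) O4).det = 2 := by
    rw [Matrix.det_fin_two_of]
    linear_combination h
  rw [hdet] at h3
  have hN : N (2 : O4) = 16 := by
    simp [N, nA, nB]
  rw [hN] at h3
  have h16 : √(((16 : ℤ) : ℝ)) = 4 := by
    rw [show (((16 : ℤ) : ℝ)) = 4 ^ 2 by norm_num]
    exact Real.sqrt_sq (by norm_num)
  rw [h16] at h3
  have hpi := Real.pi_gt_three
  have h9 : (6 : ℝ) ^ 4 ≤ (4 * Real.pi / 2) ^ (2 * 2) := by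
    have : (6 : ℝ) ≤ 4 * Real.pi / 2 := by linarith
    calc (6 : ℝ) ^ 4 ≤ (4 * Real.pi / 2) ^ 4 := pow_le_pow_left₀ (by norm_num) this 4
      _ = _ := by norm_num
  have h10 : (((2 * 2 + 1).factorial : ℕ) : ℝ) = 120 := by
    norm_num [Nat.factorial]
  rw [h10] at h3
  norm_num at h3 h9
  linarith

/-- the base of the induction for `D = 1` -/
lemma base_bin (hM : S_MIN) (hL : S_L1) {a b c : O4} (ha : TPos a) (h : 4 * a * c - b ^ 2 = 2) :
    Rep 1 a b c := by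
  obtain ⟨n, m, hnm, hT⟩ := short hM ha h
  obtain ⟨u, v, huv, hu⟩ := hL _ (tpos_value ha two_pos h hnm) hT
  have hs := s_pow_two
  intro x y
  have key : 4 * (a * n ^ 2 + b * (n * m) + c * m ^ 2) * (a * x ^ 2 + b * (x * y) + c * y ^ 2) =
      (2 * a * n * x + b * (n * y + m * x) + 2 * c * m * y) ^ 2 + (s * (n * y - m * x)) ^ 2 := by
    linear_combination (n * y - m * x) ^ 2 * h - (n * y - m * x) ^ 2 * hs
  rcases hu with hu | hu
  · rw [hu] at key
    refine ⟨2, v * (2 * a * n * x + b * (n * y + m * x) + 2 * c * m * y), v * (s * (n * y - m * x)), ?_⟩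
    linear_combination v ^ 2 * key - 4 * (a * x ^ 2 + b * (x * y) + c * y ^ 2) * (u * v + 1) * huv
  · rw [hu, p2_eq] at key
    obtain ⟨P, hP⟩ : ∃ P, P = 2 * a * n * x + b * (n * y + m * x) + 2 * c * m * y := ⟨_, rfl⟩
    obtain ⟨Q, hQ⟩ : ∃ Q, Q = s * (n * y - m * x) := ⟨_, rfl⟩
    obtain ⟨V, hV⟩ : ∃ V, V = a * x ^ 2 + b * (x * y) + c * y ^ 2 := ⟨_, rfl⟩
    rw [← hP, ← hQ, ← hV] at key
    rw [← hV]
    have h1 : (s - 1) * (s + 1) = 1 := by linear_combination hs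
    refine ⟨4, v * (s + 1) * ((s - 1) * P - Q), v * (s + 1) * ((s - 1) * Q + P), ?_⟩
    have h2 : (v * (s + 1) * ((s - 1) * P - Q)) ^ 2 + 1 * (v * (s + 1) * ((s - 1) * Q + P)) ^ 2 =
        v ^ 2 * (s + 1) ^ 2 * ((s - 1) ^ 2 + 1) * (P ^ 2 + Q ^ 2) := by ring
    rw [h2, ← key]
    have h3 : (s - 1) ^ 2 + 1 = 2 * (2 - s) := by linear_combination hs
    have h4 : (2 - s) ^ 2 = 2 * (s - 1) ^ 2 := by linear_combination -hs
    rw [h3]
    have h5 : v ^ 2 * (s + 1) ^ 2 * (2 * (2 - s)) * (4 * ((2 - s) * u ^ 2) * V) =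
        8 * (u * v) ^ 2 * (s + 1) ^ 2 * (2 - s) ^ 2 * V := by ring
    rw [h5, h4, huv]
    have h6 : 8 * (1 : O4) ^ 2 * (s + 1) ^ 2 * (2 * (s - 1) ^ 2) * V =
        16 * ((s - 1) * (s + 1)) ^ 2 * V := by ring
    rw [h6, h1]
    ring

theorem t_BIN : S_MIN → S_L1 → S_BIN := by
  intro hM hL j a b c hj ha h x y
  have hs := s_pow_two
  have := ind 1 1 le_rfl one_pos' ?_ ?_ ?_ j hj a b c ha (by rw [h]; ring) x y
  · obtain ⟨k, Y, Z, h1⟩ := this
    exact ⟨k, Y, Z, by rw [h1]; ring⟩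
  · intro Y Z
    refine ⟨(s - 1) * Y - Z, (s - 1) * Z + Y, ?_⟩
    rw [p2_eq]
    linear_combination -(Y ^ 2 + Z ^ 2) * hs
  · intro i _ b1
    rcases Nat.eq_zero_or_pos i with rfl | hi
    · exact ⟨b1 + 1, -b1, by ring⟩
    · obtain ⟨i, rfl⟩ : ∃ l, i = l + 1 := ⟨i - 1, by omega⟩
      exact ⟨b1, 2 ^ i, by ring⟩
  · intro a b c ha h
    exact base_bin hM hL ha (by rw [h]; ring)

theorem t_BIP : S_BB → S_BIP := by
  intro hB j a b c hj ha h
  have hs := s_pow_two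
  refine ind p2 2 (by norm_num) p2_pos ?_ ?_ ?_ j hj a b c ha h
  · intro Y Z
    exact ⟨s * p2 * Z, s * Y, by linear_combination (-(p2 * Y ^ 2 + p2 ^ 2 * Z ^ 2)) * hs⟩
  · intro i hi b1
    obtain ⟨i, rfl⟩ : ∃ l, i = l + 1 := ⟨i - 1, by omega⟩
    exact ⟨b1, 2 ^ i * p2, by ring⟩
  · intro a b c ha h
    obtain ⟨b1, rfl⟩ : (2 : O4) ∣ b := two_dvd_of_sq (y := a * c - p2) (by
      linear_combination -h)
    have hac : a * c - b1 ^ 2 = p2 := by
      apply four_cancel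
      linear_combination h
    exact fun x y => hB a b1 c ha hac x y

end Pool.U757.TQ.BIN
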