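import Pool.Agent.U757.TQ.Stm

/-!
# Project TQ, package BLI: Blichfeldt's bound for positive definite real forms in even dimension

Adapted from `Pool.Agent.K3h85.KB.BLI` (hermitian forms over the Eisenstein integers).
-/

set_option autoImplicit false

namespace Pool.U757.TQ.BLI

set_option linter.unusedSectionVars false
set_option linter.style.haveILetI false

open Matrix MeasureTheory
open scoped MatrixOrder

variable {ι : Type} [Fintype ι] [DecidableEq ι]

/-- the value of the form -/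
noncomputable def q (G : Matrix ι ι ℝ) (x : ι → ℝ) : ℝ := ∑ i, ∑ j, G i j * x i * x j

theorem exists_factor {G : Matrix ι ι ℝ} (hG : G.PosDef) :
    ∃ B : Matrix ι ι ℝ, |B.det| = √(G.det) ∧ B.det ≠ 0 ∧ ∀ x, q G x = ∑ i, (B *ᵥ x) i ^ 2 := by
  obtain ⟨B, hB⟩ : ∃ B : Matrix ι ι ℝ, G = Bᴴ * B := by
    obtain ⟨B, hB⟩ := CStarAlgebra.nonneg_iff_eq_star_mul_self.mp hG.posSemidef.nonneg
    exact ⟨B, hB⟩
  have hdet : G.det = B.det ^ 2 := by
    rw [hB, det_mul, det_conjTranspose, star_trivial]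
    ring
  refine ⟨B, ?_, ?_, fun x => ?_⟩
  · rw [hdet, Real.sqrt_sq_eq_abs]
  · intro h
    have := hG.det_pos
    rw [hdet, h] at this
    norm_num at this
  · unfold q
    have h1 : ∀ i j, G i j = ∑ l, B l i * B l j := by
      intro i j
      rw [hB, mul_apply]
      rfl
    have h2 : ∀ l, (B *ᵥ x) l ^ 2 = ∑ i, ∑ j, B l i * B l j * x i * x j := by
      intro l
      rw [sq, mulVec, dotProduct, Finset.sum_mul_sum]
      exact Finset.sum_congr rfl fun i _ => Finset.sum_congr rfl fun j _ => by ring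
    simp only [h1, h2, Finset.sum_mul]
    symm
    rw [Finset.sum_comm]
    exact Finset.sum_congr rfl fun i _ => Finset.sum_comm

/-- the volume of a ball -/
theorem vol_ball {k : ℕ} (hι : Fintype.card ι = 2 * k) (hk : 1 ≤ k) {s : ℝ} (hs : 0 < s) :
    volume {z : ι → ℝ | ∑ i, z i ^ 2 < s} =
      ENNReal.ofReal (s ^ k * (Real.pi ^ k / k.factorial)) := by
  haveI : Nonempty ι := Fintype.card_pos_iff.1 (by omega)
  have h1 := MeasureTheory.volume_sum_rpow_lt ι (p := 2) (by norm_num) (√s)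
  have h2 : {x : ι → ℝ | (∑ i, |x i| ^ (2 : ℝ)) ^ (1 / (2 : ℝ)) < √s} =
      {z : ι → ℝ | ∑ i, z i ^ 2 < s} := by
    ext x
    simp only [Set.mem_ofPred_eq]
    have h3 : ∑ i, |x i| ^ (2 : ℝ) = ∑ i, x i ^ 2 :=
      Finset.sum_congr rfl fun i _ => by rw [Real.rpow_two, sq_abs]
    rw [h3, ← Real.sqrt_eq_rpow]
    exact Real.sqrt_lt_sqrt_iff (Finset.sum_nonneg fun i _ => by positivity)
  rw [h2] at h1
  rw [h1, hι, ← ENNReal.ofReal_pow (Real.sqrt_nonneg s), ← ENNReal.ofReal_mul (by positivity)]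
  congr 1
  have h4 : (√s) ^ (2 * k) = s ^ k := by rw [pow_mul, Real.sq_sqrt hs.le]
  have h5 : (2 * Real.Gamma (1 / 2 + 1)) ^ (2 * k) = Real.pi ^ k := by
    rw [Real.Gamma_add_one (by norm_num), Real.Gamma_one_half_eq, pow_mul]
    congr 1
    rw [show 2 * (1 / 2 * √Real.pi) = √Real.pi by ring, Real.sq_sqrt Real.pi_pos.le]
  have h6 : Real.Gamma (((2 * k : ℕ) : ℝ) / 2 + 1) = k.factorial := by
    push_cast
    rw [mul_div_cancel_left₀ _ (two_ne_zero)]
    exact Real.Gamma_nat_eq_factorial k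
  rw [h4, h5, h6]

/-- the lattice vectors in real coordinates -/
noncomputable def lv (k : ι → ℤ) : ι → ℝ := fun i => (k i : ℝ)

/-- translates of the unit cube -/
def cell (k : ι → ℤ) : Set (ι → ℝ) := {z | ∀ i, ⌊z i⌋ = k i}

theorem measurable_cell (k : ι → ℤ) : MeasurableSet (cell k) := by
  have h : cell k = ⋂ i, {z : ι → ℝ | ⌊z i⌋ = k i} := by
    ext z
    simp [cell]
  rw [h]
  exact MeasurableSet.iInter fun i =>
    measurableSet_eq_fun (Int.measurable_floor.comp (measurable_pi_apply i)) measurable_const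

theorem vol_cell : volume (cell (0 : ι → ℤ)) = 1 := by
  have h1 : cell (0 : ι → ℤ) = Set.univ.pi fun _ => Set.Ico (0 : ℝ) 1 := by
    ext z
    simp only [cell, Set.mem_ofPred_eq, Pi.zero_apply, Set.mem_pi,
      Set.mem_univ, forall_true_left, Set.mem_Ico, Int.floor_eq_iff, Int.cast_zero, zero_add]
  rw [h1, volume_pi_pi]
  refine Finset.prod_eq_one fun i _ => ?_
  simp

theorem cell_preimage (k : ι → ℤ) : (fun z : ι → ℝ => z + lv k) ⁻¹' cell k = cell 0 := by
  ext z
  simp only [cell, lv, Set.mem_preimage, Set.mem_ofPred_eq, Pi.add_apply,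
    Int.floor_add_intCast, Pi.zero_apply, add_eq_right]

/-- unfolding of an integral over the cells -/
theorem unfold_int (G : (ι → ℝ) → ENNReal) (hG : Measurable G) :
    ∫⁻ z, G z = ∫⁻ z in cell 0, ∑' k : ι → ℤ, G (z + lv k) := by
  have h1 : ⋃ k : ι → ℤ, cell k = Set.univ := by
    ext z
    simp only [Set.mem_iUnion, Set.mem_univ, iff_true]
    exact ⟨fun i => ⌊z i⌋, fun i => rfl⟩
  have h2 : Pairwise (Function.onFun Disjoint fun k : ι → ℤ => cell k) := by
    intro k k' hk
    rw [Function.onFun, Set.disjoint_left]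
    intro z hz hz'
    exact hk (funext fun i => (hz i).symm.trans (hz' i))
  rw [lintegral_tsum (f := fun (k : ι → ℤ) z => G (z + lv k))
    (fun k => ((hG.comp (measurable_add_const _)).aemeasurable)), ← setLIntegral_univ, ← h1,
    lintegral_iUnion measurable_cell h2]
  refine tsum_congr fun k => ?_
  have h3 := (measurePreserving_add_right (volume : Measure (ι → ℝ)) (lv k)).setLIntegral_comp_preimage
    (measurable_cell k) hG
  rw [← h3]
  change ∫⁻ a in (fun z : ι → ℝ => z + lv k) ⁻¹' cell k, G (a + lv k) = _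
  rw [cell_preimage]

/-! ### The packing estimate -/

theorem real_pairs {κ : Type} (s : Finset κ) (a : κ → ℝ) :
    ∑ i ∈ s, ∑ j ∈ s, (a i - a j) ^ 2 =
      2 * s.card * ∑ i ∈ s, a i ^ 2 - 2 * (∑ i ∈ s, a i) ^ 2 := by
  have h2 : ∑ i ∈ s, ∑ j ∈ s, a i * a j = (∑ i ∈ s, a i) ^ 2 := by
    rw [sq, Finset.sum_mul_sum]
  have h1 : ∀ x y : ℝ, (x - y) ^ 2 = x ^ 2 + y ^ 2 - 2 * (x * y) := fun x y => by ring
  simp only [h1, Finset.sum_sub_distrib, Finset.sum_add_distrib]
  have h3 : ∑ i ∈ s, ∑ j ∈ s, 2 * (a i * a j) = 2 * (∑ i ∈ s, a i) ^ 2 := by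
    rw [← h2, Finset.mul_sum]
    exact Finset.sum_congr rfl fun i _ => by rw [Finset.mul_sum]
  rw [h3]
  simp only [Finset.sum_const, nsmul_eq_mul, ← Finset.mul_sum]
  ring

theorem packing {κ : Type} {G B : Matrix ι ι ℝ}
    (hq : ∀ x, q G x = ∑ i, (B *ᵥ x) i ^ 2) {h : ℝ} (s : Finset κ) (x : κ → ι → ℝ)
    (hx : ∀ i ∈ s, ∀ j ∈ s, i ≠ j → h ≤ q G (x i - x j)) :
    (s.card : ℝ) * ((s.card : ℝ) - 1) * h ≤ 2 * s.card * ∑ i ∈ s, q G (x i) := by
  classical
  have h1 : ∑ i ∈ s, ∑ j ∈ s, q G (x i - x j) ≤ 2 * s.card * ∑ i ∈ s, q G (x i) := by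
    have h2 : ∑ i ∈ s, ∑ j ∈ s, q G (x i - x j) =
        ∑ l, ∑ i ∈ s, ∑ j ∈ s, ((B *ᵥ x i) l - (B *ᵥ x j) l) ^ 2 := by
      have h9 : ∀ i ∈ s, ∑ j ∈ s, q G (x i - x j) =
          ∑ l, ∑ j ∈ s, ((B *ᵥ x i) l - (B *ᵥ x j) l) ^ 2 := by
        intro i _
        rw [Finset.sum_comm]
        refine Finset.sum_congr rfl fun j _ => ?_
        rw [hq, mulVec_sub]
        rfl
      rw [Finset.sum_congr rfl h9, Finset.sum_comm]
    rw [h2]
    have h3 : ∑ i ∈ s, q G (x i) = ∑ l, ∑ i ∈ s, (B *ᵥ x i) l ^ 2 := by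
      rw [Finset.sum_comm]
      exact Finset.sum_congr rfl fun i _ => hq _
    rw [h3, Finset.mul_sum]
    refine Finset.sum_le_sum fun l _ => ?_
    rw [real_pairs]
    have : 0 ≤ (∑ i ∈ s, (B *ᵥ x i) l) ^ 2 := by positivity
    linarith
  refine le_trans ?_ h1
  have h4 : ∀ i ∈ s, ((s.card : ℝ) - 1) * h ≤ ∑ j ∈ s, q G (x i - x j) := by
    intro i hi
    rw [← Finset.add_sum_erase s _ hi]
    have h5 : 0 ≤ q G (x i - x i) := by
      rw [hq]
      exact Finset.sum_nonneg fun _ _ => by positivity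
    have h6 : ((s.card : ℝ) - 1) * h ≤ ∑ j ∈ s.erase i, q G (x i - x j) := by
      have h7 : ∑ j ∈ s.erase i, h ≤ ∑ j ∈ s.erase i, q G (x i - x j) :=
        Finset.sum_le_sum fun j hj =>
          hx i hi j (Finset.mem_of_mem_erase hj) (Finset.ne_of_mem_erase hj).symm
      rw [Finset.sum_const, Finset.card_erase_of_mem hi, nsmul_eq_mul,
        Nat.cast_sub (Finset.card_pos.mpr ⟨i, hi⟩), Nat.cast_one] at h7
      exact h7
    linarith
  have h8 := Finset.sum_le_sum h4
  rw [Finset.sum_const, nsmul_eq_mul] at h8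
  calc (s.card : ℝ) * ((s.card : ℝ) - 1) * h = s.card * (((s.card : ℝ) - 1) * h) := by ring
    _ ≤ _ := h8

theorem packing' {κ : Type} {G B : Matrix ι ι ℝ}
    (hq : ∀ x, q G x = ∑ i, (B *ᵥ x) i ^ 2) {h : ℝ} (hh : 0 < h) (s : Finset κ)
    (x : κ → ι → ℝ) (hx : ∀ i j, i ≠ j → h ≤ q G (x i - x j)) :
    ∑ i ∈ s, max (h / 2 - q G (x i)) 0 ≤ h / 2 := by
  classical
  have h1 : ∑ i ∈ s, max (h / 2 - q G (x i)) 0 =
      ∑ i ∈ s.filter (fun i => q G (x i) < h / 2), (h / 2 - q G (x i)) := by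
    rw [Finset.sum_filter]
    refine Finset.sum_congr rfl fun i _ => ?_
    split_ifs with h2
    · exact max_eq_left (by linarith)
    · exact max_eq_right (by linarith)
  rw [h1]
  set t := s.filter (fun i => q G (x i) < h / 2)
  rcases Nat.eq_zero_or_pos t.card with h0 | h0
  · rw [Finset.card_eq_zero.mp h0, Finset.sum_empty]
    positivity
  have h2 := packing hq t x fun i _ j _ hij => hx i j hij
  have h3 : (0 : ℝ) < t.card := by exact_mod_cast h0
  have h4 : ((t.card : ℝ) - 1) * h ≤ 2 * ∑ i ∈ t, q G (x i) := by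
    have h5 : (t.card : ℝ) * (((t.card : ℝ) - 1) * h) ≤
        t.card * (2 * ∑ i ∈ t, q G (x i)) := by linarith
    exact le_of_mul_le_mul_left h5 h3
  rw [Finset.sum_sub_distrib, Finset.sum_const, nsmul_eq_mul]
  linarith

theorem lv_inj {k k' : ι → ℤ} (h : lv k = lv k') : k = k' := by
  funext i
  have h1 := congrFun h i
  unfold lv at h1
  exact_mod_cast h1

theorem int_pow (n : ℕ) (R : ℝ) : ∫ t in (0 : ℝ)..R, (R - t) ^ n = R ^ (n + 1) / (n + 1) := by
  have h := intervalIntegral.integral_comp_sub_left (a := 0) (b := R) (fun x : ℝ => x ^ n) R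
  rw [sub_self, sub_zero, integral_pow] at h
  rw [h]
  simp

theorem t_BLI : S_BLI := by
  intro n ι _ _ hι hn G hG h hh hmin
  obtain ⟨B, hB1, hB2, hq⟩ := exists_factor hG
  set D : ℝ := |B.det| with hD
  have hD0 : 0 < D := abs_pos.2 hB2
  set R : ℝ := h / 2 with hR
  have hR0 : 0 < R := by positivity
  have hcont : Continuous fun z => q G z := by
    unfold q
    fun_prop
  have hvol : ∀ s : ℝ, 0 < s → volume {z | q G z < s} =
      ENNReal.ofReal (D⁻¹ * (s ^ n * (Real.pi ^ n / n.factorial))) := by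
    intro s hs
    have h1 : {z | q G z < s} = (toLin' B) ⁻¹' {z : ι → ℝ | ∑ i, z i ^ 2 < s} := by
      ext z
      rw [Set.mem_ofPred_eq, hq]
      rfl
    rw [h1, Measure.addHaar_preimage_linearMap _ (by rw [LinearMap.det_toLin']; exact hB2),
      LinearMap.det_toLin', vol_ball hι hn hs, ← ENNReal.ofReal_mul (by positivity), abs_inv]
  -- the upper bound
  have hmeas : Measurable fun z => ENNReal.ofReal (max (R - q G z) 0) :=
    ((continuous_const.sub hcont).max continuous_const).measurable.ennreal_ofReal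
  have hup : ∫⁻ z, ENNReal.ofReal (max (R - q G z) 0) ≤ ENNReal.ofReal R := by
    rw [unfold_int _ hmeas]
    calc _ ≤ ∫⁻ _ in cell (0 : ι → ℤ), ENNReal.ofReal R := by
          refine lintegral_mono fun z => ?_
          rw [ENNReal.tsum_eq_iSup_sum]
          refine iSup_le fun s => ?_
          rw [← ENNReal.ofReal_sum_of_nonneg fun _ _ => le_max_right _ _]
          refine ENNReal.ofReal_le_ofReal (packing' hq hh s (fun k => z + lv k) ?_)
          intro k k' hk
          have h1 : z + lv k - (z + lv k') = lv (k - k') := by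
            funext i
            simp [lv]
          rw [h1]
          refine (hmin (k - k') (sub_ne_zero.2 hk)).trans (le_of_eq ?_)
          rfl
      _ = ENNReal.ofReal R := by
          rw [setLIntegral_const, vol_cell, mul_one]
  -- the lower bound
  have hlow : ENNReal.ofReal (D⁻¹ * (Real.pi ^ n / n.factorial) * (R ^ (n + 1) / (n + 1))) ≤
      ∫⁻ z, ENNReal.ofReal (max (R - q G z) 0) := by
    have h0 := lintegral_eq_lintegral_meas_lt (f := fun z => max (R - q G z) 0)
      (volume : Measure (ι → ℝ)) (Filter.Eventually.of_forall fun _ => le_max_right _ _)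
      ((continuous_const.sub hcont).max continuous_const).aemeasurable
    rw [h0]
    have h1 : ∫⁻ t in Set.Ioo 0 R,
        ENNReal.ofReal (D⁻¹ * (Real.pi ^ n / n.factorial) * (R - t) ^ n) ≤
        ∫⁻ t in Set.Ioi 0, volume {z | t < max (R - q G z) 0} := by
      refine le_trans (le_of_eq ?_) (lintegral_mono_set (s := Set.Ioo 0 R)
        Set.Ioo_subset_Ioi_self)
      refine setLIntegral_congr_fun measurableSet_Ioo fun t ht => ?_
      have h2 : {z | t < max (R - q G z) 0} = {z | q G z < R - t} := by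
        ext z
        simp only [Set.mem_ofPred_eq, lt_max_iff]
        constructor
        · rintro (h4 | h4)
          · linarith
          · linarith [ht.1]
        · intro h4
          left
          linarith
      change _ = volume {z | t < max (R - q G z) 0}
      rw [h2, hvol _ (by linarith [ht.2])]
      congr 1
      ring
    refine le_trans (le_of_eq ?_) h1
    rw [← ofReal_integral_eq_lintegral_ofReal]
    · rw [← integral_Ioc_eq_integral_Ioo, ← intervalIntegral.integral_of_le hR0.le,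
        intervalIntegral.integral_const_mul, int_pow]
    · refine (Continuous.integrableOn_Icc ?_).mono_set Set.Ioo_subset_Icc_self
      fun_prop
    · refine (ae_restrict_iff' measurableSet_Ioo).mpr (Filter.Eventually.of_forall fun t ht => ?_)
      have : 0 < R - t := by linarith [ht.2]
      positivity
  have hfin := (ENNReal.ofReal_le_ofReal_iff hR0.le).mp (hlow.trans hup)
  have h5 : (0 : ℝ) < n.factorial := by exact_mod_cast n.factorial_pos
  have h6 : (0 : ℝ) < (n : ℝ) + 1 := by positivity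
  have h7 : (Real.pi * R) ^ n ≤ ((n : ℝ) + 1) * n.factorial * D := by
    have h8 : D⁻¹ * (Real.pi ^ n / n.factorial) * (R ^ (n + 1) / (n + 1)) =
        R * ((Real.pi * R) ^ n / (((n : ℝ) + 1) * n.factorial * D)) := by
      rw [mul_pow, pow_succ']
      field_simp
    rw [h8] at hfin
    have h9 : (Real.pi * R) ^ n / (((n : ℝ) + 1) * n.factorial * D) ≤ 1 := by
      have h10 : R * ((Real.pi * R) ^ n / (((n : ℝ) + 1) * n.factorial * D)) ≤ R * 1 := by
        linarith
      exact le_of_mul_le_mul_left h10 hR0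
    rwa [div_le_one (by positivity)] at h9
  have h11 : h * Real.pi / 2 = Real.pi * R := by
    rw [hR]
    ring
  rw [h11]
  refine h7.trans (le_of_eq ?_)
  rw [Nat.factorial_succ, ← hB1]
  push_cast
  ring

end Pool.U757.TQ.BLI
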