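import Pool.Agent.U757.TQ.StmP

/-!
# Project TQ (helper757), package LFT (helper480): transfer to the quadratic extension
`L = K(√(-α))`
-/

set_option autoImplicit false

namespace Pool.U757.TQ.LFT

open NumberField Filter Finset Ideal
open Pool.Agent.Y773.G (IsModChar rl sg)
open Pool.Agent.Y773 (TPos)

/-- the quadratic extension `L = K(β)`, `β ^ 2 = -α`, with its automorphism -/
structure Quad (K L : Type) [Field K] [NumberField K] [Field L] [NumberField L] [Algebra K L]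
    (α : 𝓞 K) (β : 𝓞 L) (τ : 𝓞 L ≃ₐ[𝓞 K] 𝓞 L) : Prop where
  sq : β ^ 2 = - algebraMap (𝓞 K) (𝓞 L) α
  inv : τ β = - β
  nrm : ∀ x : 𝓞 L, algebraMap (𝓞 K) (𝓞 L) (Algebra.intNorm (𝓞 K) (𝓞 L) x) = x * τ x
  fin : Module.finrank (𝓞 K) (𝓞 L) = 2

open Polynomial in
lemma exists_ext (K : Type) [Field K] [NumberField K] [IsTotallyReal K] (a : K)
    (hns : ∀ b : K, b ^ 2 ≠ a) :
    ∃ (L : Type) (_ : Field L) (_ : NumberField L) (_ : Algebra K L) (r : L),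
      r ^ 2 = algebraMap K L a ∧ Module.finrank K L = 2 ∧
      ∀ σ : L →ₐ[K] L, σ r = r → σ = AlgHom.id K L := by
  have hirr : Irreducible (X ^ 2 - C a : K[X]) :=
    X_pow_sub_C_irreducible_of_prime Nat.prime_two hns
  have hF : Fact (Irreducible (X ^ 2 - C a : K[X])) := ⟨hirr⟩
  let pb := AdjoinRoot.powerBasis (f := (X ^ 2 - C a : K[X])) hirr.ne_zero
  have hfin' : Module.Finite K (AdjoinRoot (X ^ 2 - C a : K[X])) := pb.finite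
  have hnf : NumberField (AdjoinRoot (X ^ 2 - C a : K[X])) := NumberField.of_module_finite K _
  refine ⟨AdjoinRoot (X ^ 2 - C a : K[X]), inferInstance, hnf, inferInstance,
    AdjoinRoot.root (X ^ 2 - C a : K[X]), root_X_pow_sub_C_pow 2 a, ?_,
    fun σ hσ => AdjoinRoot.algHom_ext hσ⟩
  rw [pb.finrank, AdjoinRoot.powerBasis_dim]
  exact natDegree_X_pow_sub_C

lemma exists_quad (K : Type) [Field K] [NumberField K] [IsTotallyReal K] (α : 𝓞 K)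
    (hα : TPos K α) :
    ∃ (L : Type) (_ : Field L) (_ : NumberField L) (_ : Algebra K L) (β : 𝓞 L)
      (τ : 𝓞 L ≃ₐ[𝓞 K] 𝓞 L), Quad K L α β τ := by
  classical
  obtain ⟨w⟩ : Nonempty (InfinitePlace K) := inferInstance
  have hw : w.IsReal := IsTotallyReal.isReal w
  have hns : ∀ b : K, b ^ 2 ≠ -(α : K) := by
    intro b hb
    have h1 := hα (InfinitePlace.embedding_of_isReal hw)
    have h2 := congrArg (InfinitePlace.embedding_of_isReal hw) hb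
    rw [map_pow, map_neg] at h2
    nlinarith [sq_nonneg (InfinitePlace.embedding_of_isReal hw b)]
  obtain ⟨L, iF, iN, iA, r, hr, hfin, hgen⟩ := exists_ext K (-(α : K)) hns
  rw [map_neg] at hr
  have : Algebra.IsQuadraticExtension K L := { finrank_eq_two' := hfin }
  have : IsGalois K L := inferInstance
  have hrint : IsIntegral ℤ r := by
    refine IsIntegral.of_pow (n := 2) (by norm_num) ?_
    rw [hr]
    exact ((RingOfIntegers.isIntegral_coe α).map (algebraMap K L).toIntAlgHom).neg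
  obtain ⟨β, hβ⟩ : ∃ β : 𝓞 L, algebraMap (𝓞 L) L β = r := ⟨⟨r, hrint⟩, rfl⟩
  have hcard : Nat.card Gal(L/K) = 2 := by rw [IsGalois.card_aut_eq_finrank, hfin]
  obtain ⟨σ, hσ1, hσ2⟩ := (Nat.card_eq_two_iff' (1 : Gal(L/K))).1 hcard
  have hσr : σ r = - r := by
    have h1 : (σ r) ^ 2 = r ^ 2 := by
      rw [← map_pow, hr, map_neg, AlgEquiv.commutes]
    rcases sq_eq_sq_iff_eq_or_eq_neg.1 h1 with h2 | h2
    · exfalso
      apply hσ1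
      have h3 : (σ : L →ₐ[K] L) = AlgHom.id K L := hgen _ h2
      ext x
      exact congrArg (fun g : L →ₐ[K] L => g x) h3
    · exact h2
  refine ⟨L, iF, iN, iA, β, galRestrict (𝓞 K) K L (𝓞 L) σ, ?_, ?_, ?_, ?_⟩
  · apply FaithfulSMul.algebraMap_injective (𝓞 L) L
    rw [map_pow, map_neg, ← IsScalarTower.algebraMap_apply (𝓞 K) (𝓞 L) L,
      IsScalarTower.algebraMap_apply (𝓞 K) K L, hβ, hr]
  · apply FaithfulSMul.algebraMap_injective (𝓞 L) L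
    rw [algebraMap_galRestrict_apply, map_neg, hβ, hσr]
  · intro x
    apply FaithfulSMul.algebraMap_injective (𝓞 L) L
    rw [map_mul, algebraMap_galRestrict_apply, ← IsScalarTower.algebraMap_apply (𝓞 K) (𝓞 L) L,
      IsScalarTower.algebraMap_apply (𝓞 K) K L,
      Algebra.algebraMap_intNorm (A := 𝓞 K) (K := K) (L := L) (B := 𝓞 L) x,
      Algebra.norm_eq_prod_automorphisms]
    have huniv : (Finset.univ : Finset Gal(L/K)) = {1, σ} := by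
      ext g
      simp only [Finset.mem_univ, Finset.mem_insert, Finset.mem_singleton, true_iff]
      by_cases hg : g = 1
      · exact Or.inl hg
      · exact Or.inr (hσ2 g hg)
    rw [huniv, Finset.prod_insert (by simpa using hσ1.symm), Finset.prod_singleton]
    rfl
  · rw [← IsFractionRing.finrank_eq (𝓞 K) K (𝓞 L) L, hfin]

variable {K L : Type} [Field K] [NumberField K] [Field L] [NumberField L] [Algebra K L]
variable {α : 𝓞 K} {β : 𝓞 L} {τ : 𝓞 L ≃ₐ[𝓞 K] 𝓞 L}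

lemma Quad.tr (h : Quad K L α β τ) (x : 𝓞 L) :
    ∃ c : 𝓞 K, algebraMap (𝓞 K) (𝓞 L) c = x + τ x := by
  refine ⟨Algebra.intNorm (𝓞 K) (𝓞 L) (1 + x) - 1 - Algebra.intNorm (𝓞 K) (𝓞 L) x, ?_⟩
  rw [map_sub, map_sub, h.nrm, h.nrm, map_one, map_add, map_one]
  ring

lemma Quad.al (h : Quad K L α β τ) : algebraMap (𝓞 K) (𝓞 L) α = - β ^ 2 := by
  rw [h.sq, neg_neg]

lemma Quad.nrm_ne (h : Quad K L α β τ) {x : 𝓞 L} (hx : x ≠ 0) :
    Algebra.intNorm (𝓞 K) (𝓞 L) x ≠ 0 := by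
  intro h0
  have h1 := h.nrm x
  rw [h0, map_zero] at h1
  rcases mul_eq_zero.1 h1.symm with h2 | h2
  · exact hx h2
  · exact hx ((map_eq_zero_iff τ τ.injective).1 h2)

lemma Quad.pos (h : Quad K L α β τ) (hα : TPos K α) {x : 𝓞 L} (hx : x ≠ 0) :
    TPos K (Algebra.intNorm (𝓞 K) (𝓞 L) x) := by
  obtain ⟨c, hc⟩ := h.tr x
  obtain ⟨d, hd⟩ := h.tr (β * x)
  have key : 4 * α * Algebra.intNorm (𝓞 K) (𝓞 L) x = α * c ^ 2 + d ^ 2 := by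
    apply FaithfulSMul.algebraMap_injective (𝓞 K) (𝓞 L)
    rw [map_mul, map_mul, map_add, map_mul, map_pow, map_pow, hc, hd, h.nrm, h.al, map_mul,
      h.inv, map_ofNat]
    ring
  intro σ
  have hne : σ ((Algebra.intNorm (𝓞 K) (𝓞 L) x : 𝓞 K) : K) ≠ 0 := by
    rw [Ne, map_eq_zero_iff σ σ.injective]
    exact fun h0 => h.nrm_ne hx (FaithfulSMul.algebraMap_injective (𝓞 K) K (by rw [map_zero]; exact h0))
  have h1 := congrArg (fun y : 𝓞 K => σ (y : K)) key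
  simp only [map_mul, map_add, map_pow] at h1
  have h4 : σ ((4 : 𝓞 K) : K) = 4 := by
    rw [show ((4 : 𝓞 K) : K) = 4 from map_ofNat (algebraMap (𝓞 K) K) 4, map_ofNat]
  rw [h4] at h1
  have h2 := hα σ
  have h3 : 0 ≤ 4 * σ (α : K) * σ ((Algebra.intNorm (𝓞 K) (𝓞 L) x : 𝓞 K) : K) := by
    rw [h1]
    positivity
  have h5 : 0 ≤ σ ((Algebra.intNorm (𝓞 K) (𝓞 L) x : 𝓞 K) : K) :=
    nonneg_of_mul_nonneg_right h3 (by positivity)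
  exact lt_of_le_of_ne h5 (Ne.symm hne)

lemma Quad.one (h : Quad K L α β τ) {m : 𝓞 K} {x : 𝓞 L}
    (hx : x - 1 ∈ (Ideal.span {m}).map (algebraMap (𝓞 K) (𝓞 L))) :
    Algebra.intNorm (𝓞 K) (𝓞 L) x - 1 ∈ Ideal.span {m} := by
  rw [Ideal.map_span, Set.image_singleton] at hx
  obtain ⟨z, hz⟩ := Ideal.mem_span_singleton.1 hx
  obtain ⟨c, hc⟩ := h.tr z
  refine Ideal.mem_span_singleton.2 ⟨c + m * Algebra.intNorm (𝓞 K) (𝓞 L) z, ?_⟩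
  apply FaithfulSMul.algebraMap_injective (𝓞 K) (𝓞 L)
  have hx' : x = 1 + algebraMap (𝓞 K) (𝓞 L) m * z := by linear_combination hz
  rw [map_sub, map_mul, map_add, map_mul, hc, h.nrm, h.nrm, map_one, hx', map_add, map_one,
    map_mul, AlgEquiv.commutes]
  ring

lemma sg_one [IsTotallyReal K] (e : InfinitePlace K → ℕ) {x : 𝓞 K} (hx : TPos K x) :
    sg e (x : K) = 1 := by
  unfold sg
  refine Finset.prod_eq_one fun w _ => ?_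
  have hw : w.IsReal := IsTotallyReal.isReal w
  have h1 : rl w (x : K) = InfinitePlace.embedding_of_isReal hw (x : K) := by
    have h2 : rl w (x : K) = (w.embedding (x : K)).re := if_pos hw
    rw [h2, ← InfinitePlace.embedding_of_isReal_apply hw, Complex.ofReal_re]
  rw [h1, sign_pos (hx _)]
  simp

lemma Quad.cop (h : Quad K L α β τ) {m : 𝓞 K} (𝔄 : Ideal (𝓞 L)) :
    IsCoprime (relNorm (𝓞 K) 𝔄) (Ideal.span {m}) ↔
      IsCoprime 𝔄 ((Ideal.span {m}).map (algebraMap (𝓞 K) (𝓞 L))) := by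
  rw [Ideal.isCoprime_iff_exists, Ideal.isCoprime_iff_exists]
  constructor
  · rintro ⟨i, hi, j, hj, hij⟩
    refine ⟨algebraMap (𝓞 K) (𝓞 L) i, relNorm_le_comap (𝓞 K) 𝔄 hi,
      algebraMap (𝓞 K) (𝓞 L) j, Ideal.mem_map_of_mem _ hj, ?_⟩
    rw [← map_add, hij, map_one]
  · rintro ⟨i, hi, j, hj, hij⟩
    have h1 : i - 1 ∈ (Ideal.span {m}).map (algebraMap (𝓞 K) (𝓞 L)) := by
      have : i - 1 = - j := by linear_combination hij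
      rw [this]
      exact neg_mem hj
    refine ⟨Algebra.intNorm (𝓞 K) (𝓞 L) i, ?_, 1 - Algebra.intNorm (𝓞 K) (𝓞 L) i, ?_, by ring⟩
    · rw [relNorm_apply]
      exact Ideal.subset_span ⟨i, hi, rfl⟩
    · rw [← neg_sub]
      exact neg_mem (h.one h1)

lemma Quad.modChar [IsTotallyReal K] (h : Quad K L α β τ) (hα : TPos K α)
    {m : 𝓞 K} {e : InfinitePlace K → ℕ} {η : Ideal (𝓞 K) →*₀ ℂ}
    (hη : IsModChar (Ideal.span {m}) e η) :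
    IsModChar ((Ideal.span {m}).map (algebraMap (𝓞 K) (𝓞 L))) (fun _ => 0)
      (η.comp (relNorm (𝓞 K) : Ideal (𝓞 L) →*₀ Ideal (𝓞 K))) where
  ne_bot := by
    rw [Ne, Ideal.map_eq_bot_iff_of_injective (FaithfulSMul.algebraMap_injective (𝓞 K) (𝓞 L))]
    exact hη.ne_bot
  ne_top := by
    intro h0
    have h1 := relNorm_algebraMap (𝓞 L) (Ideal.span {m})
    rw [h0, relNorm_top, h.fin, ← Ideal.one_eq_top, ← one_pow 2] at h1
    have h2 := (pow_left_inj two_ne_zero).1 h1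
    rw [Ideal.one_eq_top] at h2
    exact hη.ne_top h2.symm
  sig_le := fun _ => Nat.zero_le _
  cpx := fun _ _ => rfl
  supp := fun 𝔞 => by
    rw [MonoidWithZeroHom.comp_apply, hη.supp, h.cop]
  sig := fun x hx hx1 => by
    rw [MonoidWithZeroHom.comp_apply, relNorm_singleton, hη.sig _ (h.nrm_ne hx) (h.one hx1),
      sg_one e (h.pos hα hx)]
    simp [sg]

/-- the ideal `(𝔭, β - t)` -/
def PP (β : 𝓞 L) (𝔭 : Ideal (𝓞 K)) (t : 𝓞 K) : Ideal (𝓞 L) :=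
  𝔭.map (algebraMap (𝓞 K) (𝓞 L)) ⊔ Ideal.span {β - algebraMap (𝓞 K) (𝓞 L) t}

lemma Quad.mapPP (h : Quad K L α β τ) (𝔭 : Ideal (𝓞 K)) (t : 𝓞 K) :
    (PP β 𝔭 t).map τ = PP β 𝔭 (-t) := by
  unfold PP
  rw [Ideal.map_sup, Ideal.map_span, Set.image_singleton, map_sub, h.inv, AlgEquiv.commutes,
    map_neg, sub_neg_eq_add]
  congr 1
  · change ((𝔭.map (algebraMap (𝓞 K) (𝓞 L))).map (τ : 𝓞 L →+* 𝓞 L)) = _
    rw [Ideal.map_map]
    congr 1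
    ext x
    simp
  · rw [← Ideal.span_singleton_neg]
    congr 2
    ring

lemma not_mem {m : 𝓞 K} {𝔭 : Ideal (𝓞 K)} (hp : 𝔭.IsPrime) (hc : IsCoprime 𝔭 (Ideal.span {m})) :
    m ∉ 𝔭 := by
  intro hm
  apply hp.ne_top
  rw [Ideal.isCoprime_iff_sup_eq] at hc
  rw [← hc]
  exact (sup_eq_left.2 ((Ideal.span_singleton_le_iff_mem _).2 hm)).symm

lemma not_mem_two {𝔭 : Ideal (𝓞 K)} (hp : 𝔭.IsPrime)
    (hc : IsCoprime 𝔭 (Ideal.span {4 * α})) {t : 𝓞 K} (ht : t ^ 2 + α ∈ 𝔭) : 2 * t ∉ 𝔭 := by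
  intro h2
  apply not_mem hp hc
  rcases hp.mem_or_mem h2 with h | h
  · have : 4 * α = (2 * α) * 2 := by ring
    rw [this]
    exact 𝔭.mul_mem_left _ h
  · have : 4 * α = 4 * ((t ^ 2 + α) - t * t) := by ring
    rw [this]
    exact 𝔭.mul_mem_left _ (𝔭.sub_mem ht (𝔭.mul_mem_left _ h))

lemma Quad.mulPP (h : Quad K L α β τ) {𝔭 : Ideal (𝓞 K)} (hp : 𝔭.IsPrime) (h0 : 𝔭 ≠ ⊥)
    {t : 𝓞 K} (h2 : 2 * t ∉ 𝔭) (ht : t ^ 2 + α ∈ 𝔭) :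
    PP β 𝔭 t * PP β 𝔭 (-t) = 𝔭.map (algebraMap (𝓞 K) (𝓞 L)) := by
  have hmax : 𝔭.IsMaximal := hp.isMaximal h0
  apply le_antisymm
  · unfold PP
    rw [Ideal.mul_sup, Ideal.sup_mul, Ideal.sup_mul]
    refine sup_le (sup_le (Ideal.mul_le_inf.trans inf_le_left)
      (Ideal.mul_le_inf.trans inf_le_right)) (sup_le (Ideal.mul_le_inf.trans inf_le_left) ?_)
    rw [Ideal.span_singleton_mul_span_singleton, Ideal.span_singleton_le_iff_mem]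
    have : (β - algebraMap (𝓞 K) (𝓞 L) t) * (β - algebraMap (𝓞 K) (𝓞 L) (-t)) =
        - algebraMap (𝓞 K) (𝓞 L) (t ^ 2 + α) := by
      rw [map_add, map_neg, map_pow, h.al]
      ring
    rw [this]
    exact neg_mem (Ideal.mem_map_of_mem _ ht)
  · obtain ⟨a, ha, b, hb, hab⟩ : ∃ a ∈ 𝔭, ∃ b ∈ Ideal.span {2 * t}, a + b = 1 := by
      have h3 : IsCoprime 𝔭 (Ideal.span {2 * t}) := by
        rw [Ideal.isCoprime_iff_sup_eq]
        exact hmax.1.2 _ (left_lt_sup.2 fun h4 => h2 (h4 (Ideal.mem_span_singleton_self _)))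
      exact (Ideal.isCoprime_iff_exists).1 h3
    obtain ⟨u, hu⟩ := Ideal.mem_span_singleton.1 hb
    intro y hy
    have h5 : y = y * algebraMap (𝓞 K) (𝓞 L) a +
        (y * (β - algebraMap (𝓞 K) (𝓞 L) (-t)) - (β - algebraMap (𝓞 K) (𝓞 L) t) * y) *
          algebraMap (𝓞 K) (𝓞 L) u := by
      have h6 := congrArg (algebraMap (𝓞 K) (𝓞 L)) hab
      rw [hu, map_add, map_mul, map_mul, map_one, map_ofNat] at h6
      rw [map_neg]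
      linear_combination (-y) * h6
    rw [h5]
    have hy1 : ∀ s : 𝓞 K, y ∈ PP β 𝔭 s := fun s => Ideal.mem_sup_left hy
    have hb1 : ∀ s : 𝓞 K, β - algebraMap (𝓞 K) (𝓞 L) s ∈ PP β 𝔭 s := fun s =>
      Ideal.mem_sup_right (Ideal.mem_span_singleton_self _)
    refine Ideal.add_mem _ (Ideal.mul_mem_mul (hy1 _)
      (Ideal.mem_sup_left (Ideal.mem_map_of_mem _ ha))) (Ideal.mul_mem_right _ _
      (Ideal.sub_mem _ (Ideal.mul_mem_mul (hy1 _) (hb1 _)) (Ideal.mul_mem_mul (hb1 _) (hy1 _))))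

lemma Quad.relPP (h : Quad K L α β τ) {𝔭 : Ideal (𝓞 K)} (hp : 𝔭.IsPrime) (h0 : 𝔭 ≠ ⊥)
    {t : 𝓞 K} (h2 : 2 * t ∉ 𝔭) (ht : t ^ 2 + α ∈ 𝔭) : relNorm (𝓞 K) (PP β 𝔭 t) = 𝔭 := by
  have h1 := congrArg (relNorm (𝓞 K)) (h.mulPP hp h0 h2 ht)
  rw [map_mul, relNorm_algebraMap, h.fin, ← h.mapPP, relNorm_map_algEquiv, ← pow_two] at h1
  exact (pow_left_inj two_ne_zero).1 h1

lemma comap_eq {𝔭 : Ideal (𝓞 K)} (hp : 𝔭.IsPrime) (h0 : 𝔭 ≠ ⊥) {𝔓 : Ideal (𝓞 L)}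
    (hN : relNorm (𝓞 K) 𝔓 = 𝔭) : 𝔓.comap (algebraMap (𝓞 K) (𝓞 L)) = 𝔭 := by
  have hmax : 𝔭.IsMaximal := hp.isMaximal h0
  have h1 := relNorm_le_comap (𝓞 K) 𝔓
  rw [hN] at h1
  refine (hmax.eq_of_le ?_ h1).symm
  intro h2
  rw [Ideal.comap_eq_top_iff] at h2
  rw [h2, relNorm_top] at hN
  exact hp.ne_top hN.symm

lemma Quad.nePP (h : Quad K L α β τ) {𝔭 : Ideal (𝓞 K)} (hp : 𝔭.IsPrime) (h0 : 𝔭 ≠ ⊥)
    {t : 𝓞 K} (h2 : 2 * t ∉ 𝔭) (ht : t ^ 2 + α ∈ 𝔭) : PP β 𝔭 t ≠ PP β 𝔭 (-t) := by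
  intro h1
  apply h2
  rw [← comap_eq hp h0 (h.relPP hp h0 h2 ht), Ideal.mem_comap]
  have hb1 : ∀ s : 𝓞 K, β - algebraMap (𝓞 K) (𝓞 L) s ∈ PP β 𝔭 s := fun s =>
      Ideal.mem_sup_right (Ideal.mem_span_singleton_self _)
  have h3 := hb1 (-t)
  rw [← h1] at h3
  have h4 := Ideal.sub_mem _ h3 (hb1 t)
  have h5 : algebraMap (𝓞 K) (𝓞 L) (2 * t) = β - algebraMap (𝓞 K) (𝓞 L) (-t) -
      (β - algebraMap (𝓞 K) (𝓞 L) t) := by
    rw [map_mul, map_neg, map_ofNat]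
    ring
  rw [h5]
  exact h4

lemma eq_of_le {𝔭 : Ideal (𝓞 K)} (h0 : 𝔭 ≠ ⊥) {𝔓 𝔔 : Ideal (𝓞 L)}
    (h1 : relNorm (𝓞 K) 𝔓 = 𝔭) (h2 : relNorm (𝓞 K) 𝔔 = 𝔭) (hle : 𝔔 ≤ 𝔓) : 𝔓 = 𝔔 := by
  obtain ⟨J, hJ⟩ := Ideal.dvd_iff_le.2 hle
  have h3 := congrArg (relNorm (𝓞 K)) hJ
  rw [map_mul, h1, h2] at h3
  have h4 : relNorm (𝓞 K) J = 1 := by
    have h5 : 𝔭 * relNorm (𝓞 K) J = 𝔭 * 1 := by rw [mul_one]; exact h3.symm
    exact mul_left_cancel₀ h0 h5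
  have h6 : Ideal.absNorm J = 1 := by
    rw [← absNorm_relNorm (𝓞 K) (𝓞 L) J, h4, map_one]
  rw [Ideal.absNorm_eq_one_iff] at h6
  rw [hJ, h6, Ideal.mul_top]

lemma Quad.fib (h : Quad K L α β τ) {𝔭 : Ideal (𝓞 K)} (hp : 𝔭.IsPrime) (h0 : 𝔭 ≠ ⊥)
    {t : 𝓞 K} (h2 : 2 * t ∉ 𝔭) (ht : t ^ 2 + α ∈ 𝔭) {𝔓 : Ideal (𝓞 L)} (hP : 𝔓.IsPrime)
    (hN : relNorm (𝓞 K) 𝔓 = 𝔭) : 𝔓 = PP β 𝔭 t ∨ 𝔓 = PP β 𝔭 (-t) := by
  have h1 := comap_eq hp h0 hN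
  have h3 : (β - algebraMap (𝓞 K) (𝓞 L) t) * (β - algebraMap (𝓞 K) (𝓞 L) (-t)) ∈ 𝔓 := by
    have h4 : (β - algebraMap (𝓞 K) (𝓞 L) t) * (β - algebraMap (𝓞 K) (𝓞 L) (-t)) =
        - algebraMap (𝓞 K) (𝓞 L) (t ^ 2 + α) := by
      rw [map_add, map_neg, map_pow, h.al]
      ring
    rw [h4]
    refine neg_mem ?_
    rw [← h1] at ht
    exact ht
  have hle : 𝔭.map (algebraMap (𝓞 K) (𝓞 L)) ≤ 𝔓 := Ideal.map_le_iff_le_comap.2 h1.ge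
  have ht' : (-t) ^ 2 + α ∈ 𝔭 := by rwa [neg_sq]
  have h2' : 2 * (-t) ∉ 𝔭 := by
    rw [mul_neg, Ideal.neg_mem_iff]
    exact h2
  rcases hP.mem_or_mem h3 with h4 | h4
  · left
    exact eq_of_le h0 hN (h.relPP hp h0 h2 ht)
      (sup_le hle ((Ideal.span_singleton_le_iff_mem _).2 h4))
  · right
    exact eq_of_le h0 hN (h.relPP hp h0 h2' ht')
      (sup_le hle ((Ideal.span_singleton_le_iff_mem _).2 h4))

lemma Quad.sp (h : Quad K L α β τ) {𝔭 : Ideal (𝓞 K)} (hp : 𝔭.IsPrime) (h0 : 𝔭 ≠ ⊥)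
    {l : ℕ} (hl : l.Prime) {𝔓 : Ideal (𝓞 L)} (hP : Ideal.absNorm 𝔓 = l)
    (hN : relNorm (𝓞 K) 𝔓 = 𝔭) : Sp α 𝔭 := by
  have h1 := comap_eq hp h0 hN
  have hF : Fact l.Prime := ⟨hl⟩
  have hcard : Nat.card (𝓞 L ⧸ 𝔓) = l := by
    rw [← hP, Ideal.absNorm_apply]
    rfl
  have hne : 𝔓 ≠ ⊤ := by
    intro h2
    rw [h2, Ideal.absNorm_top] at hP
    exact hl.one_lt.ne hP
  have hnt : Nontrivial (𝓞 L ⧸ 𝔓) := Ideal.Quotient.nontrivial_iff.2 hne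
  obtain ⟨n, hn⟩ := AddSubgroup.mem_zmultiples_iff.1
    (mem_zmultiples_of_prime_card hcard (g := (1 : 𝓞 L ⧸ 𝔓)) (g' := Ideal.Quotient.mk 𝔓 β)
      one_ne_zero)
  have h3 : (n : 𝓞 L) - β ∈ 𝔓 := by
    rw [← Ideal.Quotient.eq, map_intCast, ← hn]
    simp
  refine ⟨(n : 𝓞 K), ?_⟩
  rw [← h1, Ideal.mem_comap, map_add, map_pow, map_intCast, h.al]
  have h4 : (n : 𝓞 L) ^ 2 + - β ^ 2 = (n + β) * (n - β) := by ring
  rw [h4]
  exact 𝔓.mul_mem_left _ h3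

open Classical in
lemma Quad.sum (h : Quad K L α β τ) {e : InfinitePlace K → ℕ} {η : Ideal (𝓞 K) →*₀ ℂ}
    (hη : IsModChar (Ideal.span {4 * α}) e η) {l : ℕ} (hl : l.Prime) :
    (∑ᶠ 𝔓 ∈ {𝔓 : Ideal (𝓞 L) | Ideal.absNorm 𝔓 = l}, η (relNorm (𝓞 K) 𝔓)) =
      ∑ᶠ 𝔭 ∈ {𝔭 : Ideal (𝓞 K) | Ideal.absNorm 𝔭 = l}, if Sp α 𝔭 then 2 * η 𝔭 else 0 := by
  have hfL : {𝔓 : Ideal (𝓞 L) | Ideal.absNorm 𝔓 = l}.Finite :=
    Ideal.finite_setOfPred_absNorm_eq l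
  have hfK : {𝔭 : Ideal (𝓞 K) | Ideal.absNorm 𝔭 = l}.Finite :=
    Ideal.finite_setOfPred_absNorm_eq l
  rw [finsum_mem_eq_finite_toFinset_sum _ hfL, finsum_mem_eq_finite_toFinset_sum _ hfK]
  have hmaps : ∀ 𝔓 ∈ hfL.toFinset, relNorm (𝓞 K) 𝔓 ∈ hfK.toFinset := by
    intro 𝔓 h𝔓
    rw [Set.Finite.mem_toFinset] at h𝔓 ⊢
    rw [Set.mem_ofPred_eq] at h𝔓 ⊢
    rw [absNorm_relNorm, h𝔓]
  rw [← Finset.sum_fiberwise_of_maps_to hmaps]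
  refine Finset.sum_congr rfl fun 𝔭 h𝔭 => ?_
  rw [Set.Finite.mem_toFinset, Set.mem_ofPred_eq] at h𝔭
  have hp : 𝔭.IsPrime := Ideal.isPrime_of_irreducible_absNorm (by rw [h𝔭]; exact hl)
  have h0 : 𝔭 ≠ ⊥ := by
    intro h1
    rw [h1, Ideal.absNorm_bot] at h𝔭
    exact hl.ne_zero h𝔭.symm
  have h1 : ∑ 𝔓 ∈ hfL.toFinset with relNorm (𝓞 K) 𝔓 = 𝔭, η (relNorm (𝓞 K) 𝔓) =
      ((hfL.toFinset.filter fun 𝔓 => relNorm (𝓞 K) 𝔓 = 𝔭).card : ℂ) * η 𝔭 := by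
    rw [← nsmul_eq_mul, ← Finset.sum_const]
    refine Finset.sum_congr rfl fun 𝔓 h𝔓 => ?_
    rw [(Finset.mem_filter.1 h𝔓).2]
  rw [h1]
  by_cases hη0 : η 𝔭 = 0
  · rw [hη0]
    simp
  have hc : IsCoprime 𝔭 (Ideal.span {4 * α}) := (hη.supp 𝔭).1 hη0
  split_ifs with hsp
  · obtain ⟨t, ht⟩ := hsp
    have h2 := not_mem_two hp hc ht
    have ht' : (-t) ^ 2 + α ∈ 𝔭 := by rwa [neg_sq]
    have h2' : 2 * (-t) ∉ 𝔭 := by
      rw [mul_neg, Ideal.neg_mem_iff]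
      exact h2
    have h3 : (hfL.toFinset.filter fun 𝔓 => relNorm (𝓞 K) 𝔓 = 𝔭) =
        {PP β 𝔭 t, PP β 𝔭 (-t)} := by
      ext 𝔓
      rw [Finset.mem_filter, Set.Finite.mem_toFinset, Set.mem_ofPred_eq, Finset.mem_insert,
        Finset.mem_singleton]
      constructor
      · rintro ⟨h4, h5⟩
        exact h.fib hp h0 h2 ht (Ideal.isPrime_of_irreducible_absNorm (by rw [h4]; exact hl)) h5
      · have h6 : ∀ 𝔔 : Ideal (𝓞 L), relNorm (𝓞 K) 𝔔 = 𝔭 →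
            Ideal.absNorm 𝔔 = l ∧ relNorm (𝓞 K) 𝔔 = 𝔭 := fun 𝔔 h7 =>
          ⟨by rw [← absNorm_relNorm (𝓞 K) (𝓞 L) 𝔔, h7, h𝔭], h7⟩
        rintro (rfl | rfl)
        · exact h6 _ (h.relPP hp h0 h2 ht)
        · exact h6 _ (h.relPP hp h0 h2' ht')
    rw [h3, Finset.card_pair (h.nePP hp h0 h2 ht)]
    norm_num
  · have h3 : (hfL.toFinset.filter fun 𝔓 => relNorm (𝓞 K) 𝔓 = 𝔭) = ∅ := by
      rw [Finset.filter_eq_empty_iff]
      intro 𝔓 h4 h5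
      rw [Set.Finite.mem_toFinset, Set.mem_ofPred_eq] at h4
      exact hsp (h.sp hp h0 hl h4 h5)
    rw [h3]
    simp

open Classical in
lemma Quad.P1_eq (h : Quad K L α β τ) {e : InfinitePlace K → ℕ} {η : Ideal (𝓞 K) →*₀ ℂ}
    (hη : IsModChar (Ideal.span {4 * α}) e η) (x : ℝ) :
    P1 (fun 𝔓 : Ideal (𝓞 L) => (η.comp (relNorm (𝓞 K) : Ideal (𝓞 L) →*₀ Ideal (𝓞 K))) 𝔓) x =
      P1 (fun 𝔭 => if Sp α 𝔭 then 2 * η 𝔭 else 0) x := by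
  unfold P1
  refine Finset.sum_congr rfl fun l hl => ?_
  rw [Finset.mem_filter] at hl
  rw [← h.sum hη hl.2]
  rfl

theorem t_LFT : S_DEG → S_LFT := by
  classical
  intro hD K _ _ hK α hα e η hη
  obtain ⟨L, iF, iN, iA, β, τ, h⟩ := exists_quad K α hα
  obtain ⟨δ, hδ, hδ0, hδ1, hlim⟩ := hD L _ _ _ (h.modChar hα hη)
  refine ⟨δ, hδ, fun h1 => hδ1 fun 𝔄 h𝔄 => ?_, fun h1 𝔭 hp h0 hc => ?_, ?_⟩
  · rw [MonoidWithZeroHom.comp_apply]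
    exact h1 _ ((h.cop 𝔄).2 h𝔄)
  · have h2 : ∀ 𝔄 : Ideal (𝓞 L), IsCoprime (relNorm (𝓞 K) 𝔄) (Ideal.span {4 * α}) →
        η (relNorm (𝓞 K) 𝔄) = 1 := by
      intro 𝔄 h3
      by_contra h4
      have h5 := hδ0 ⟨𝔄, (h.cop 𝔄).1 h3, h4⟩
      rw [h1] at h5
      exact one_ne_zero h5
    constructor
    · rintro ⟨t, ht⟩
      have h3 := h.relPP hp h0 (not_mem_two hp hc ht) ht
      have h4 := h2 (PP β 𝔭 t)
      rw [h3] at h4
      exact h4 hc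
    · have h3 := relNorm_algebraMap (𝓞 L) 𝔭
      rw [h.fin] at h3
      have h4 := h2 (𝔭.map (algebraMap (𝓞 K) (𝓞 L)))
      rw [h3, map_pow] at h4
      exact h4 hc.pow_left
  · refine hlim.congr fun x => ?_
    rw [h.P1_eq hη]

end Pool.U757.TQ.LFT
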